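import Pool.Agent.Helper54.CG.Goals

/-! MP_c70db9_ag, the G4 tower, packet CG-TT: pull back of a tangency at a point of `M` off `R`. -/

namespace Pool.Agent.Helper95.CG.TT

open MvPolynomial Pool.Agent.Helper16.Cusp Pool.Agent.Helper54.CG
open Pool.Agent.Helper54.CG (pull phi)

theorem eval_pull (v : V) (P : R) :
    eval v (Pool.Agent.Helper54.CG.pull P) = eval (Pool.Agent.Helper54.CG.phi v) P := by
  unfold Pool.Agent.Helper54.CG.pull
  induction P using MvPolynomial.induction_on with
  | C a => rw [aeval_C, eval_C]; exact eval_C a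
  | add p q hp hq => rw [map_add, map_add, map_add, hp, hq]
  | mul_X p i hp => rw [map_mul, map_mul, map_mul, hp, aeval_X, eval_X]; rfl

theorem dd_mul (a b : R) (v u : V) :
    dd (a * b) v u = dd a v u * eval v b + eval v a * dd b v u := by
  unfold dd
  rw [Finset.sum_mul, Finset.mul_sum, ← Finset.sum_add_distrib]
  refine Finset.sum_congr rfl fun i _ => ?_
  rw [pderiv_mul, map_add, map_mul, map_mul]
  ring

theorem t (h1 : G_MR) (h2 : G_CH) (h3 : G_INV) : G_TT := by
  intro F v hT hM hR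
  obtain ⟨E, α, b, β, hE, hE0, hM', hb, hα, hβ, u', hu1, hu2⟩ := hT
  obtain ⟨u, hu⟩ := h3 v hR u'
  have hu' : (fun i => dd (ff i) v u) = u' := funext hu
  have hmul : ∀ p q : R, Pool.Agent.Helper54.CG.pull (p * q) =
      Pool.Agent.Helper54.CG.pull p * Pool.Agent.Helper54.CG.pull q := fun p q => map_mul _ p q
  have hadd : ∀ p q : R, Pool.Agent.Helper54.CG.pull (p + q) =
      Pool.Agent.Helper54.CG.pull p + Pool.Agent.Helper54.CG.pull q := fun p q => map_add _ p q
  refine ⟨Pool.Agent.Helper54.CG.pull E, pR ^ 3 * Pool.Agent.Helper54.CG.pull α,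
    Pool.Agent.Helper54.CG.pull b, Pool.Agent.Helper54.CG.pull β, ?_, ?_, hM, ?_, ?_, ?_, u, ?_, ?_⟩
  · have h := congrArg Pool.Agent.Helper54.CG.pull hE
    rw [hmul, hadd, hmul, hmul, sq, hmul, h1] at h
    rw [h]
    ring
  · rw [eval_pull]
    exact hE0
  · rw [eval_pull]
    exact hb
  · rw [map_mul, map_pow, eval_pull]
    exact mul_ne_zero (pow_ne_zero 3 hR) hα
  · rw [eval_pull]
    exact hβ
  · have h := h2 pM v u
    rw [hu', hu1, h1, dd_mul, hM, zero_mul, add_zero, map_pow] at h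
    exact (mul_eq_zero.1 h).resolve_right (pow_ne_zero 3 hR)
  · rw [h2 b v u, hu']
    exact hu2

end Pool.Agent.Helper95.CG.TT
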